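import Mathlib

/-! Fischer form on real polynomials in D variables (graded version), harmonic polynomials,
raising operators.  (MP_b5f63d_co, project KL, Fischer route of helper14 / helper89.) -/

open MvPolynomial Finset

namespace Pool.Agent.Helper82.FP

noncomputable section

variable {D : ℕ}

/-- product of factorials -/
def mf (α : Fin D →₀ ℕ) : ℝ := ∏ i, ((α i).factorial : ℝ)

lemma mf_pos (α : Fin D →₀ ℕ) : 0 < mf α := Finset.prod_pos fun i _ => by positivity

lemma mf_add_single (α : Fin D →₀ ℕ) (i : Fin D) :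
    mf (α + Finsupp.single i 1) = ((α i : ℝ) + 1) * mf α := by
  classical
  unfold mf
  rw [← Finset.mul_prod_erase _ _ (Finset.mem_univ i), ← Finset.mul_prod_erase _ (fun k => ((α k).factorial : ℝ)) (Finset.mem_univ i)]
  have h : ∏ x ∈ univ.erase i, (((α + Finsupp.single i 1 : Fin D →₀ ℕ) x).factorial : ℝ)
      = ∏ x ∈ univ.erase i, ((α x).factorial : ℝ) := by
    apply Finset.prod_congr rfl
    intro x hx
    have : i ≠ x := fun h => (Finset.mem_erase.mp hx).1 h.symm
    rw [Finsupp.add_apply, Finsupp.single_eq_of_ne this.symm, add_zero]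
  rw [h]
  simp [Nat.factorial_succ]
  ring

/-- exponents of degree j -/
def Mon (D j : ℕ) : Finset (Fin D →₀ ℕ) := (Finset.univ : Finset (Fin D)).finsuppAntidiag j

lemma mem_Mon {j : ℕ} {α : Fin D →₀ ℕ} : α ∈ Mon D j ↔ ∑ i, α i = j := by simp [Mon]

lemma card_Mon (D j : ℕ) : (Mon D j).card = (D + j - 1).choose j := by
  unfold Mon
  rw [Finset.card_finsuppAntidiag_nat_eq_choose]
  simp

/-- the Fischer form on the component of degree j -/
def ip (j : ℕ) : MvPolynomial (Fin D) ℝ →ₗ[ℝ] MvPolynomial (Fin D) ℝ →ₗ[ℝ] ℝ :=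
  LinearMap.mk₂ ℝ (fun f g => ∑ α ∈ Mon D j, mf α * (coeff α f * coeff α g))
    (by intro f f' g; rw [← Finset.sum_add_distrib]; apply Finset.sum_congr rfl; intro α _; rw [coeff_add]; ring)
    (by intro c f g; rw [smul_eq_mul, Finset.mul_sum]; apply Finset.sum_congr rfl; intro α _; rw [coeff_smul, smul_eq_mul]; ring)
    (by intro f g g'; rw [← Finset.sum_add_distrib]; apply Finset.sum_congr rfl; intro α _; rw [coeff_add]; ring)
    (by intro c f g; rw [smul_eq_mul, Finset.mul_sum]; apply Finset.sum_congr rfl; intro α _; rw [coeff_smul, smul_eq_mul]; ring)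

lemma ip_def (j : ℕ) (f g : MvPolynomial (Fin D) ℝ) :
    ip j f g = ∑ α ∈ Mon D j, mf α * (coeff α f * coeff α g) := rfl

lemma ip_comm (j : ℕ) (f g : MvPolynomial (Fin D) ℝ) : ip j f g = ip j g f := by
  rw [ip_def, ip_def]; apply Finset.sum_congr rfl; intro α _; ring

lemma ip_self_nonneg (j : ℕ) (f : MvPolynomial (Fin D) ℝ) : 0 ≤ ip j f f := by
  rw [ip_def]; apply Finset.sum_nonneg; intro α _
  exact mul_nonneg (mf_pos α).le (mul_self_nonneg _)

/-- adjointness of multiplication and derivative -/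
lemma ip_X (j : ℕ) (i : Fin D) (f g : MvPolynomial (Fin D) ℝ) :
    ip (j + 1) (X i * f) g = ip j f (pderiv i g) := by
  classical
  rw [ip_def, ip_def]
  symm
  apply Finset.sum_of_injOn (fun β => β + Finsupp.single i 1)
  · intro a _ b _ hab
    exact add_right_cancel hab
  · intro β hβ
    have h := mem_Mon.mp (Finset.mem_coe.mp hβ)
    refine Finset.mem_coe.mpr (mem_Mon.mpr ?_)
    simp only [Finsupp.add_apply, Finset.sum_add_distrib, h]
    simp [Finsupp.single_apply]
  · intro α hα hn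
    rw [coeff_X_mul']
    by_cases hi : i ∈ α.support
    · exfalso
      apply hn
      have h1 : α - Finsupp.single i 1 + Finsupp.single i 1 = α := by
        apply tsub_add_cancel_of_le
        rw [Finsupp.single_le_iff]
        exact Nat.one_le_iff_ne_zero.mpr (Finsupp.mem_support_iff.mp hi)
      refine ⟨α - Finsupp.single i 1, ?_, h1⟩
      refine Finset.mem_coe.mpr (mem_Mon.mpr ?_)
      have h := mem_Mon.mp hα
      rw [← h1] at h
      simp only [Finsupp.add_apply, Finset.sum_add_distrib] at h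
      have h2 : ∑ x, (Finsupp.single i 1 : Fin D →₀ ℕ) x = 1 := by simp [Finsupp.single_apply]
      omega
    · simp [hi]
  · intro β hβ
    rw [coeff_X_mul', coeff_pderiv, mf_add_single]
    have hi : i ∈ (β + Finsupp.single i 1).support := by
      simp [Finsupp.mem_support_iff]
    rw [if_pos hi]
    have : β + Finsupp.single i 1 - Finsupp.single i 1 = β := by simp
    rw [this]
    ring

lemma ip_X' (j : ℕ) (i : Fin D) (f g : MvPolynomial (Fin D) ℝ) :
    ip (j + 1) g (X i * f) = ip j (pderiv i g) f := by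
  rw [ip_comm, ip_X, ip_comm]

/-- Laplacian -/
def Lap : MvPolynomial (Fin D) ℝ →ₗ[ℝ] MvPolynomial (Fin D) ℝ :=
  ∑ i, (pderiv i).toLinearMap ∘ₗ (pderiv i).toLinearMap

lemma Lap_apply (f : MvPolynomial (Fin D) ℝ) : Lap f = ∑ i, pderiv i (pderiv i f) := by
  simp [Lap]

/-- harmonic and homogeneous of degree j -/
def IsH (j : ℕ) (f : MvPolynomial (Fin D) ℝ) : Prop := f.IsHomogeneous j ∧ Lap f = 0

/-- |z|^2 -/
def R2 : MvPolynomial (Fin D) ℝ := ∑ i, X i * X i

lemma pderiv_comm' (i j : Fin D) (f : MvPolynomial (Fin D) ℝ) :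
    pderiv i (pderiv j f) = pderiv j (pderiv i f) := by
  classical
  ext m
  rw [coeff_pderiv, coeff_pderiv, coeff_pderiv, coeff_pderiv, add_right_comm]
  by_cases h : i = j
  · subst h; ring
  · have h' : j ≠ i := fun h0 => h h0.symm
    simp [h, h']
    ring

lemma pderiv_R2 (i : Fin D) : pderiv i (R2 : MvPolynomial (Fin D) ℝ) = (2 : ℝ) • X i := by
  classical
  unfold R2
  rw [map_sum]
  have : ∀ k : Fin D, pderiv i (X k * X k : MvPolynomial (Fin D) ℝ) = if k = i then (2 : ℝ) • X i else 0 := by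
    intro k
    by_cases h : k = i
    · subst h
      rw [pderiv_mul, pderiv_X_self, one_mul, mul_one, if_pos rfl, two_smul]
    · rw [pderiv_mul, pderiv_X_of_ne h, zero_mul, mul_zero, add_zero, if_neg h]
  rw [Finset.sum_congr rfl (fun k _ => this k)]
  simp

lemma Lap_pderiv (i : Fin D) (f : MvPolynomial (Fin D) ℝ) : Lap (pderiv i f) = pderiv i (Lap f) := by
  rw [Lap_apply, Lap_apply, map_sum]
  apply Finset.sum_congr rfl
  intro k _
  rw [pderiv_comm' k i f, pderiv_comm' k i]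

lemma IsH.pderiv {j : ℕ} {f : MvPolynomial (Fin D) ℝ} (h : IsH (j + 1) f) (i : Fin D) :
    IsH j (pderiv i f) := by
  refine ⟨?_, ?_⟩
  · have := h.1.pderiv (i := i)
    simpa using this
  · rw [Lap_pderiv, h.2, map_zero]

lemma pderiv_of_zero {f : MvPolynomial (Fin D) ℝ} (h : f.IsHomogeneous 0) (i : Fin D) :
    pderiv i f = 0 := by
  rw [← totalDegree_zero_iff_isHomogeneous, totalDegree_eq_zero_iff_eq_C] at h
  rw [h, pderiv_C]

lemma Lap_X_mul (i : Fin D) (f : MvPolynomial (Fin D) ℝ) :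
    Lap (X i * f) = X i * Lap f + (2 : ℝ) • pderiv i f := by
  classical
  rw [Lap_apply, Lap_apply, Finset.mul_sum]
  have : ∀ k : Fin D, pderiv k (pderiv k (X i * f)) = X i * pderiv k (pderiv k f)
      + if k = i then (2 : ℝ) • pderiv i f else 0 := by
    intro k
    by_cases h : k = i
    · subst h
      simp only [pderiv_mul, map_add, pderiv_X_self, one_mul, if_true]
      rw [two_smul]; ring
    · have h' : i ≠ k := fun h0 => h h0.symm
      simp only [pderiv_mul, pderiv_X_of_ne h', zero_mul, zero_add, if_neg h, add_zero]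
  rw [Finset.sum_congr rfl (fun k _ => this k), Finset.sum_add_distrib]
  simp

lemma Lap_R2_mul {j : ℕ} {g : MvPolynomial (Fin D) ℝ} (hg : g.IsHomogeneous j) :
    Lap (R2 * g) = R2 * Lap g + (2 * (D : ℝ) + 4 * j) • g := by
  have h1 : (R2 : MvPolynomial (Fin D) ℝ) * g = ∑ i, X i * (X i * g) := by
    unfold R2; rw [Finset.sum_mul]; apply Finset.sum_congr rfl; intro i _; ring
  rw [h1, map_sum]
  have h2 : ∀ i : Fin D, Lap (X i * (X i * g)) = X i * X i * Lap g
      + (4 : ℝ) • (X i * pderiv i g) + (2 : ℝ) • g := by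
    intro i
    rw [Lap_X_mul, Lap_X_mul, pderiv_mul, pderiv_X_self]
    rw [mul_add, one_mul, smul_add, mul_smul_comm, ← mul_assoc]
    have : (4 : ℝ) • (X i * pderiv i g) = (2 : ℝ) • (X i * pderiv i g) + (2 : ℝ) • (X i * pderiv i g) := by
      rw [← add_smul]; norm_num
    rw [this]; abel
  rw [Finset.sum_congr rfl (fun i _ => h2 i), Finset.sum_add_distrib, Finset.sum_add_distrib,
    ← Finset.smul_sum, hg.sum_X_mul_pderiv]
  have h3 : ∑ i : Fin D, X i * X i * Lap g = (R2 : MvPolynomial (Fin D) ℝ) * Lap g := by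
    unfold R2; rw [Finset.sum_mul]
  rw [h3, add_assoc]
  congr 1
  rw [Finset.sum_const, Finset.card_univ, Fintype.card_fin, add_smul, mul_smul, mul_smul]
  rw [← Nat.cast_smul_eq_nsmul ℝ, ← Nat.cast_smul_eq_nsmul ℝ]
  rw [smul_comm (D : ℝ) (2 : ℝ) g]
  abel

/-- raising operator on degree j -/
def A (j : ℕ) (i : Fin D) : MvPolynomial (Fin D) ℝ →ₗ[ℝ] MvPolynomial (Fin D) ℝ :=
  LinearMap.mulLeft ℝ (X i) - (1 / ((D : ℝ) + 2 * j - 2)) • (LinearMap.mulLeft ℝ R2 ∘ₗ (pderiv i).toLinearMap)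

lemma A_apply (j : ℕ) (i : Fin D) (f : MvPolynomial (Fin D) ℝ) :
    A j i f = X i * f - (1 / ((D : ℝ) + 2 * j - 2)) • (R2 * pderiv i f) := by
  simp [A]

lemma den_pos (hD : 3 ≤ D) (j : ℕ) : 0 < (D : ℝ) + 2 * j - 2 := by
  have : (3 : ℝ) ≤ D := by exact_mod_cast hD
  have : (0 : ℝ) ≤ j := by positivity
  linarith

lemma R2_homog : (R2 : MvPolynomial (Fin D) ℝ).IsHomogeneous 2 := by
  unfold R2
  apply IsHomogeneous.sum
  intro i _
  exact (isHomogeneous_X ℝ i).mul (isHomogeneous_X ℝ i)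

lemma IsH.A (hD : 3 ≤ D) {j : ℕ} {f : MvPolynomial (Fin D) ℝ} (h : IsH j f) (i : Fin D) :
    IsH (j + 1) (A j i f) := by
  rw [A_apply]
  rcases j with _ | j
  · rw [pderiv_of_zero h.1, mul_zero, smul_zero, sub_zero]
    refine ⟨?_, ?_⟩
    · have := (isHomogeneous_X ℝ i).mul h.1
      simpa using this
    · rw [Lap_X_mul, h.2, pderiv_of_zero h.1]; simp
  · have hp := h.pderiv i
    refine ⟨?_, ?_⟩
    · apply IsHomogeneous.sub
      · have := (isHomogeneous_X ℝ i).mul h.1
        rwa [add_comm 1 (j + 1)] at this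
      · rw [← C_mul']
        apply IsHomogeneous.C_mul
        have := R2_homog.mul hp.1
        have e : 2 + j = j + 1 + 1 := by ring
        rwa [e] at this
    · rw [map_sub, map_smul, Lap_X_mul, Lap_R2_mul hp.1, h.2, hp.2]
      rw [mul_zero, mul_zero, zero_add, zero_add, smul_smul, ← sub_smul]
      have hd := den_pos hD (j + 1)
      have : (2 : ℝ) - 1 / ((D : ℝ) + 2 * ((j + 1 : ℕ) : ℝ) - 2) * (2 * D + 4 * j) = 0 := by
        push_cast at hd ⊢
        field_simp
        ring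
      rw [this, zero_smul]

/-- (F1) adjointness -/
lemma ip_A (j : ℕ) (i : Fin D) {f g : MvPolynomial (Fin D) ℝ}
    (hf : f.IsHomogeneous j) (hg : IsH (j + 1) g) : ip (j + 1) (A j i f) g = ip j f (pderiv i g) := by
  rw [A_apply, map_sub, LinearMap.sub_apply, ip_X, map_smul, LinearMap.smul_apply]
  rcases j with _ | j
  · rw [pderiv_of_zero hf]; simp
  · have : ip (j + 1 + 1) (R2 * pderiv i f) g = 0 := by
      have h1 : (R2 : MvPolynomial (Fin D) ℝ) * pderiv i f = ∑ k, X k * (X k * pderiv i f) := by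
        unfold R2; rw [Finset.sum_mul]; apply Finset.sum_congr rfl; intro k _; ring
      rw [h1, map_sum, LinearMap.sum_apply]
      rw [Finset.sum_congr rfl (fun k _ => by rw [ip_X, ip_X])]
      rw [← map_sum, ← Lap_apply, hg.2, map_zero]
    rw [this]; simp

lemma ip_A' (j : ℕ) (i : Fin D) {f g : MvPolynomial (Fin D) ℝ}
    (hf : f.IsHomogeneous j) (hg : IsH (j + 1) g) : ip (j + 1) g (A j i f) = ip j (pderiv i g) f := by
  rw [ip_comm, ip_A j i hf hg, ip_comm]

/-- (F2) in form version -/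
lemma sum_ip_pderiv (j : ℕ) {f : MvPolynomial (Fin D) ℝ} (hf : f.IsHomogeneous (j + 1)) :
    ∑ i, ip j (pderiv i f) (pderiv i f) = ((j : ℝ) + 1) * ip (j + 1) f f := by
  rw [Finset.sum_congr rfl (fun i _ => by rw [← ip_X])]
  rw [← LinearMap.sum_apply, ← map_sum, hf.sum_X_mul_pderiv, map_nsmul, LinearMap.smul_apply]
  rw [nsmul_eq_mul]; push_cast; ring

/-- (F3) -/
lemma sum_ip_cross (j : ℕ) {f g : MvPolynomial (Fin D) ℝ} (hf : IsH (j + 1 + 1) f)
    (hg : g.IsHomogeneous j) : ∑ i, ip (j + 1) (pderiv i f) (A j i g) = 0 := by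
  rw [Finset.sum_congr rfl (fun i _ => by rw [ip_A' j i hg (hf.pderiv i)])]
  rw [← LinearMap.sum_apply, ← map_sum, ← Lap_apply, hf.2]; simp

/-- kap -/
def kap (D j : ℕ) : ℝ := ((D : ℝ) + j - 2) * (D + 2 * j) / (D + 2 * j - 2)

/-- (F5) -/
lemma sum_pderiv_A (hD : 3 ≤ D) (j : ℕ) {f : MvPolynomial (Fin D) ℝ} (hf : IsH j f) :
    ∑ i, pderiv i (A j i f) = kap D j • f := by
  have h1 : ∀ i : Fin D, pderiv i (A j i f) = f + X i * pderiv i f
      - (1 / ((D : ℝ) + 2 * j - 2)) • ((2 : ℝ) • (X i * pderiv i f) + R2 * pderiv i (pderiv i f)) := by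
    intro i
    rw [A_apply, map_sub, Derivation.map_smul, pderiv_mul, pderiv_mul, pderiv_X_self, pderiv_R2, one_mul,
      smul_mul_assoc]
  rw [Finset.sum_congr rfl (fun i _ => h1 i), Finset.sum_sub_distrib, Finset.sum_add_distrib,
    ← Finset.smul_sum, Finset.sum_add_distrib, ← Finset.smul_sum, ← Finset.mul_sum, ← Lap_apply,
    hf.2, hf.1.sum_X_mul_pderiv, Finset.sum_const, Finset.card_univ, Fintype.card_fin, mul_zero,
    add_zero, ← Nat.cast_smul_eq_nsmul ℝ, ← Nat.cast_smul_eq_nsmul ℝ, smul_smul, smul_smul,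
    ← add_smul, ← sub_smul]
  congr 1
  unfold kap
  have hd := (den_pos hD j).ne'
  rw [eq_div_iff hd]
  have key : (1 / ((D : ℝ) + 2 * j - 2)) * ((D : ℝ) + 2 * j - 2) = 1 := by
    rw [one_div, inv_mul_cancel₀ hd]
  linear_combination (-2 * (j : ℝ)) * key

lemma sum_ip_A (hD : 3 ≤ D) (j : ℕ) {f : MvPolynomial (Fin D) ℝ} (hf : IsH j f) :
    ∑ i, ip (j + 1) (A j i f) (A j i f) = kap D j * ip j f f := by
  rw [Finset.sum_congr rfl (fun i _ => by rw [ip_A j i hf.1 (hf.A hD i)])]
  rw [← map_sum, sum_pderiv_A hD j hf, map_smul, smul_eq_mul]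

end

end Pool.Agent.Helper82.FP
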