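import Mathlib
import Pool.Agent.Helper82.FP.Basic

/-! (F7): orthonormal families of harmonic polynomials of degree m killed by the derivative in
direction x (rank-nullity).  Proof in words: E = EuclideanSpace over the exponents of degree m,
toP v = sum over Mon D m of (v α / sqrt (mf α)) • monomial α 1, so ip m (toP v) (toP w) is the inner
product of v and w.  The linear map v ↦ (coefficients of dd x (toP v) on Mon D (m-1), coefficients of
Lap (toP v) on Mon D (m-2)) has a kernel of dimension at least
card (Mon D m) - card (Mon D (m-1)) - card (Mon D (m-2)); take an orthonormal basis of the kernel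
(stdOrthonormalBasis) and the first n0 of its elements. -/

open MvPolynomial Finset

namespace Pool.Agent.Helper82.FP

noncomputable section

variable {D : ℕ}

private abbrev EE (D m : ℕ) := EuclideanSpace ℝ {α // α ∈ Mon D m}

private def toP (m : ℕ) : EE D m →ₗ[ℝ] MvPolynomial (Fin D) ℝ where
  toFun v := ∑ α : {α // α ∈ Mon D m}, (v α / √(mf α.1)) • monomial α.1 (1 : ℝ)
  map_add' v w := by
    rw [← Finset.sum_add_distrib]
    refine Finset.sum_congr rfl fun α _ => ?_
    rw [← add_smul]
    simp [add_div]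
  map_smul' c v := by
    rw [RingHom.id_apply, Finset.smul_sum]
    refine Finset.sum_congr rfl fun α _ => ?_
    rw [smul_smul]
    simp [mul_div_assoc]

private lemma toP_apply (m : ℕ) (v : EE D m) :
    toP m v = ∑ α : {α // α ∈ Mon D m}, (v α / √(mf α.1)) • monomial α.1 (1 : ℝ) := rfl

private lemma coeff_toP (m : ℕ) (v : EE D m) (β : {α // α ∈ Mon D m}) :
    coeff β.1 (toP m v) = v β / √(mf β.1) := by
  classical
  rw [toP_apply, coeff_sum, Finset.sum_eq_single β]
  · rw [coeff_smul, coeff_monomial, if_pos rfl, smul_eq_mul, mul_one]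
  · intro γ _ hγ
    rw [coeff_smul, coeff_monomial, if_neg (fun h => hγ (Subtype.ext h)), smul_zero]
  · intro h
    exact absurd (Finset.mem_univ _) h

private lemma toP_homog (m : ℕ) (v : EE D m) : (toP m v).IsHomogeneous m := by
  rw [toP_apply]
  apply IsHomogeneous.sum
  intro α _
  rw [smul_monomial, smul_eq_mul, mul_one]
  apply isHomogeneous_monomial
  have h := mem_Mon.mp α.2
  rw [Finsupp.degree_eq_sum]
  exact h

private lemma ip_toP (m : ℕ) (v w : EE D m) : ip m (toP m v) (toP m w) = inner ℝ v w := by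
  rw [ip_def, ← Finset.sum_coe_sort (Mon D m), PiLp.inner_apply]
  refine Finset.sum_congr rfl fun α _ => ?_
  rw [coeff_toP, coeff_toP]
  have h := mf_pos α.1
  have hs : √(mf α.1) * √(mf α.1) = mf α.1 := Real.mul_self_sqrt h.le
  have hne : √(mf α.1) ≠ 0 := (Real.sqrt_pos.mpr h).ne'
  simp only [RCLike.inner_apply, conj_trivial]
  rw [div_mul_div_comm, hs]
  field_simp

private lemma zero_of_coeff {j : ℕ} {f : MvPolynomial (Fin D) ℝ} (hf : f.IsHomogeneous j)
    (h : ∀ α ∈ Mon D j, coeff α f = 0) : f = 0 := by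
  ext α
  rw [coeff_zero]
  by_cases hα : α ∈ Mon D j
  · exact h α hα
  · by_contra hne
    apply hα
    have h2 := hf hne
    have h3 : α.degree = j := by
      rw [← h2]
      exact Finsupp.degree_eq_weight_one (R := ℕ) ▸ rfl
    rw [Finsupp.degree_eq_sum] at h3
    exact mem_Mon.mpr h3

/-- the coefficients on `Mon D j` as a linear map -/
private def cf (j : ℕ) : MvPolynomial (Fin D) ℝ →ₗ[ℝ] ({α // α ∈ Mon D j} → ℝ) where
  toFun f := fun α => coeff α.1 f
  map_add' f g := by ext α; simp
  map_smul' c f := by ext α; simp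

private def ddx (x : Fin D → ℝ) : MvPolynomial (Fin D) ℝ →ₗ[ℝ] MvPolynomial (Fin D) ℝ :=
  ∑ i, x i • (pderiv i).toLinearMap

private lemma ddx_apply (x : Fin D → ℝ) (f : MvPolynomial (Fin D) ℝ) :
    ddx x f = ∑ i, x i • pderiv i f := by
  simp [ddx]

theorem exists_family (m : ℕ) (hm : 2 ≤ m) (x : Fin D → ℝ) :
    ∃ u : Fin ((D + m - 1).choose m - ((D + m - 2).choose (m - 1) + (D + m - 3).choose (m - 2))) →
      MvPolynomial (Fin D) ℝ,
      (∀ a, IsH m (u a)) ∧ (∀ a, ∑ i, x i • pderiv i (u a) = 0) ∧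
      ∀ a b, ip m (u a) (u b) = if a = b then 1 else 0 := by
  classical
  set T : EE D m →ₗ[ℝ] (({α // α ∈ Mon D (m - 1)} → ℝ) × ({α // α ∈ Mon D (m - 2)} → ℝ)) :=
    ((cf (m - 1)) ∘ₗ (ddx x) ∘ₗ (toP m)).prod ((cf (m - 2)) ∘ₗ Lap ∘ₗ (toP m)) with hT
  have hdim : (D + m - 1).choose m - ((D + m - 2).choose (m - 1) + (D + m - 3).choose (m - 2)) ≤
      Module.finrank ℝ (LinearMap.ker T) := by
    have h1 := LinearMap.finrank_range_add_finrank_ker T
    have h2 : Module.finrank ℝ (EE D m) = (D + m - 1).choose m := by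
      rw [finrank_euclideanSpace, Fintype.card_coe, card_Mon]
    have h3 : Module.finrank ℝ (LinearMap.range T) ≤
        (D + m - 2).choose (m - 1) + (D + m - 3).choose (m - 2) := by
      refine (Submodule.finrank_le _).trans ?_
      rw [Module.finrank_prod, Module.finrank_fintype_fun_eq_card,
        Module.finrank_fintype_fun_eq_card, Fintype.card_coe, Fintype.card_coe, card_Mon, card_Mon]
      have e1 : D + (m - 1) - 1 = D + m - 2 := by omega
      have e2 : D + (m - 2) - 1 = D + m - 3 := by omega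
      rw [e1, e2]
    omega
  let b := stdOrthonormalBasis ℝ (LinearMap.ker T)
  refine ⟨fun a => toP m (b (Fin.castLE hdim a)).1, ?_, ?_, ?_⟩
  · intro a
    have hk : T (b (Fin.castLE hdim a)).1 = 0 := LinearMap.mem_ker.mp (b (Fin.castLE hdim a)).2
    refine ⟨toP_homog m _, ?_⟩
    have h2 : (cf (m - 2)) (Lap (toP m (b (Fin.castLE hdim a)).1)) = 0 := congrArg Prod.snd hk
    have hh : (Lap (toP m (b (Fin.castLE hdim a)).1)).IsHomogeneous (m - 2) := by
      rw [Lap_apply]
      apply IsHomogeneous.sum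
      intro i _
      have := ((toP_homog m (b (Fin.castLE hdim a)).1).pderiv (i := i)).pderiv (i := i)
      rwa [Nat.sub_sub] at this
    exact zero_of_coeff hh fun α hα => congrFun h2 ⟨α, hα⟩
  · intro a
    have hk : T (b (Fin.castLE hdim a)).1 = 0 := LinearMap.mem_ker.mp (b (Fin.castLE hdim a)).2
    have h1 : (cf (m - 1)) (ddx x (toP m (b (Fin.castLE hdim a)).1)) = 0 := congrArg Prod.fst hk
    rw [ddx_apply] at h1
    refine zero_of_coeff (j := m - 1) ?_ fun α hα => congrFun h1 ⟨α, hα⟩
    apply IsHomogeneous.sum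
    intro i _
    rw [← C_mul']
    exact ((toP_homog m (b (Fin.castLE hdim a)).1).pderiv (i := i)).C_mul _
  · intro a c
    show ip m (toP m (b (Fin.castLE hdim a)).1) (toP m (b (Fin.castLE hdim c)).1) = _
    rw [ip_toP]
    have hb := b.orthonormal
    have := (orthonormal_iff_ite.mp hb) (Fin.castLE hdim a) (Fin.castLE hdim c)
    rw [Submodule.coe_inner] at this
    rw [this]
    simp [Fin.ext_iff]

end

end Pool.Agent.Helper82.FP
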