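import Mathlib
import Pool.Agent.Helper82.FP.Basic

/-! (F6) the ladder over a harmonic polynomial killed by the derivative in direction x, and the level
inequality (one square per level). -/

open MvPolynomial Finset

namespace Pool.Agent.Helper82.FP

noncomputable section

variable {D : ℕ}

/-- ladder constants -/
def cc (D m k : ℕ) : ℝ := ((k : ℝ) + 1) * (D + 2 * m - 2 + k) / (D + 2 * m + 2 * k - 2)

lemma cc_den_pos (hD : 3 ≤ D) (m k : ℕ) : 0 < (D : ℝ) + 2 * m + 2 * k - 2 := by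
  have : (3 : ℝ) ≤ D := by exact_mod_cast hD
  have : (0 : ℝ) ≤ m := by positivity
  have : (0 : ℝ) ≤ k := by positivity
  linarith

lemma cc_zero (hD : 3 ≤ D) (m : ℕ) : cc D m 0 = 1 := by
  unfold cc
  have h := cc_den_pos hD m 0
  push_cast at h ⊢
  rw [div_eq_one_iff_eq (by linarith)]
  ring

lemma cc_pos (hD : 3 ≤ D) (m k : ℕ) : 0 < cc D m k := by
  unfold cc
  have h := cc_den_pos hD m k
  have h2 : (3 : ℝ) ≤ D := by exact_mod_cast hD
  have h3 : (0 : ℝ) ≤ m := by positivity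
  have h4 : (0 : ℝ) ≤ k := by positivity
  apply div_pos _ h
  apply mul_pos <;> linarith

lemma cc_succ (hD : 3 ≤ D) (m k : ℕ) :
    cc D m (k + 1) = 1 + cc D m k * (1 - 2 * (1 / ((D : ℝ) + 2 * ((m + k + 1 : ℕ) : ℝ) - 2))) := by
  unfold cc
  have h := (cc_den_pos hD m k)
  push_cast
  obtain ⟨d, hd⟩ : ∃ d : ℝ, d = (D : ℝ) + 2 * m + 2 * k - 2 := ⟨_, rfl⟩
  have e1 : (D : ℝ) + 2 * m + 2 * ((k : ℝ) + 1) - 2 = d + 2 := by rw [hd]; ring
  have e2 : (D : ℝ) + 2 * ((m : ℝ) + k + 1) - 2 = d + 2 := by rw [hd]; ring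
  rw [← hd] at h
  rw [e1, e2, ← hd]
  have h2 : d + 2 ≠ 0 := by linarith
  have h1 : d ≠ 0 := h.ne'
  field_simp
  rw [hd]
  ring

lemma kap_pos (hD : 3 ≤ D) (j : ℕ) : 0 < kap D j := by
  unfold kap
  have h := den_pos hD j
  have h2 : (3 : ℝ) ≤ D := by exact_mod_cast hD
  have h3 : (0 : ℝ) ≤ j := by positivity
  apply div_pos _ h
  apply mul_pos <;> linarith

/-- linear form -/
def lin (x : Fin D → ℝ) : MvPolynomial (Fin D) ℝ := ∑ i, x i • X i

/-- directional derivative -/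
def Dx (x : Fin D → ℝ) : MvPolynomial (Fin D) ℝ →ₗ[ℝ] MvPolynomial (Fin D) ℝ :=
  ∑ i, x i • (pderiv i).toLinearMap

lemma Dx_apply (x : Fin D → ℝ) (f : MvPolynomial (Fin D) ℝ) : Dx x f = ∑ i, x i • pderiv i f := by
  simp [Dx]

/-- directional raising operator -/
def Ax (j : ℕ) (x : Fin D → ℝ) : MvPolynomial (Fin D) ℝ →ₗ[ℝ] MvPolynomial (Fin D) ℝ :=
  ∑ i, x i • A j i

lemma Ax_apply (j : ℕ) (x : Fin D → ℝ) (f : MvPolynomial (Fin D) ℝ) :
    Ax j x f = ∑ i, x i • A j i f := by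
  simp [Ax]

lemma Ax_eq (j : ℕ) (x : Fin D → ℝ) (f : MvPolynomial (Fin D) ℝ) :
    Ax j x f = lin x * f - (1 / ((D : ℝ) + 2 * j - 2)) • (R2 * Dx x f) := by
  rw [Ax_apply, Dx_apply, lin, Finset.sum_mul, Finset.mul_sum, Finset.smul_sum, ← Finset.sum_sub_distrib]
  apply Finset.sum_congr rfl
  intro i _
  rw [A_apply, smul_sub, smul_mul_assoc, mul_smul_comm, smul_comm]

lemma Dx_mul (x : Fin D → ℝ) (f g : MvPolynomial (Fin D) ℝ) :
    Dx x (f * g) = Dx x f * g + f * Dx x g := by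
  rw [Dx_apply, Dx_apply, Dx_apply, Finset.sum_mul, Finset.mul_sum, ← Finset.sum_add_distrib]
  apply Finset.sum_congr rfl
  intro i _
  rw [pderiv_mul, smul_add, smul_mul_assoc, mul_smul_comm]

lemma Dx_lin (x : Fin D → ℝ) (hx : ∑ i, x i ^ 2 = 1) : Dx x (lin x) = 1 := by
  classical
  rw [Dx_apply]
  have : ∀ i : Fin D, x i • pderiv i (lin x) = C (x i ^ 2) := by
    intro i
    unfold lin
    rw [map_sum]
    have h2 : ∀ k : Fin D, pderiv i (x k • X k : MvPolynomial (Fin D) ℝ) = if k = i then C (x i) else 0 := by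
      intro k
      rw [Derivation.map_smul]
      by_cases h : k = i
      · subst h
        rw [pderiv_X_self, if_pos rfl, smul_eq_C_mul, mul_one]
      · rw [pderiv_X_of_ne h, smul_zero, if_neg h]
    rw [Finset.sum_congr rfl (fun k _ => h2 k)]
    simp [smul_eq_C_mul, pow_two]
  rw [Finset.sum_congr rfl (fun i _ => this i), ← map_sum, hx, C_1]

lemma Dx_R2 (x : Fin D → ℝ) : Dx x (R2 : MvPolynomial (Fin D) ℝ) = (2 : ℝ) • lin x := by
  rw [Dx_apply, lin, Finset.smul_sum]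
  apply Finset.sum_congr rfl
  intro i _
  rw [pderiv_R2, smul_comm]

lemma IsH.add {j : ℕ} {f g : MvPolynomial (Fin D) ℝ} (hf : IsH j f) (hg : IsH j g) : IsH j (f + g) :=
  ⟨hf.1.add hg.1, by rw [map_add, hf.2, hg.2, add_zero]⟩

lemma IsH.smul {j : ℕ} {f : MvPolynomial (Fin D) ℝ} (hf : IsH j f) (c : ℝ) : IsH j (c • f) :=
  ⟨by rw [← C_mul']; exact hf.1.C_mul c, by rw [map_smul, hf.2, smul_zero]⟩

lemma IsH.zero {j : ℕ} : IsH j (0 : MvPolynomial (Fin D) ℝ) := ⟨isHomogeneous_zero _ _ _, map_zero _⟩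

lemma IsH.sum {ι : Type*} (s : Finset ι) {j : ℕ} {f : ι → MvPolynomial (Fin D) ℝ}
    (hf : ∀ i ∈ s, IsH j (f i)) : IsH j (∑ i ∈ s, f i) :=
  ⟨IsHomogeneous.sum _ _ _ fun i hi => (hf i hi).1, by
    rw [map_sum]; exact Finset.sum_eq_zero fun i hi => (hf i hi).2⟩

lemma IsH.Ax (hD : 3 ≤ D) {j : ℕ} {f : MvPolynomial (Fin D) ℝ} (h : IsH j f) (x : Fin D → ℝ) :
    IsH (j + 1) (Ax j x f) := by
  rw [Ax_apply]
  exact IsH.sum _ fun i _ => (h.A hD i).smul _

lemma ip_Ax (j : ℕ) (x : Fin D → ℝ) {f g : MvPolynomial (Fin D) ℝ}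
    (hf : f.IsHomogeneous j) (hg : IsH (j + 1) g) : ip (j + 1) (Ax j x f) g = ip j f (Dx x g) := by
  rw [Ax_apply, Dx_apply, map_sum, map_sum, LinearMap.sum_apply]
  apply Finset.sum_congr rfl
  intro i _
  rw [map_smul, map_smul, LinearMap.smul_apply, ip_A j i hf hg]

/-- the ladder -/
def psi (m : ℕ) (x : Fin D → ℝ) (u : MvPolynomial (Fin D) ℝ) : ℕ → MvPolynomial (Fin D) ℝ
  | 0 => u
  | k + 1 => Ax (m + k) x (psi m x u k)

lemma psi_IsH (hD : 3 ≤ D) {m : ℕ} {u : MvPolynomial (Fin D) ℝ} (hu : IsH m u) (x : Fin D → ℝ) (k : ℕ) :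
    IsH (m + k) (psi m x u k) := by
  induction k with
  | zero => exact hu
  | succ k ih => exact ih.Ax hD x

/-- (F6) -/
lemma Dx_psi_succ (hD : 3 ≤ D) {m : ℕ} {u : MvPolynomial (Fin D) ℝ} (x : Fin D → ℝ)
    (hx : ∑ i, x i ^ 2 = 1) (hu : Dx x u = 0) (k : ℕ) :
    Dx x (psi m x u (k + 1)) = cc D m k • psi m x u k := by
  induction k with
  | zero =>
    show Dx x (Ax (m + 0) x u) = cc D m 0 • u
    rw [Ax_eq, hu, mul_zero, smul_zero, sub_zero, Dx_mul, Dx_lin x hx, hu, mul_zero, one_mul,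
      add_zero, cc_zero hD, one_smul]
  | succ k ih =>
    set f := psi m x u (k + 1) with hf
    set g := psi m x u k with hg
    have hfg : f = lin x * g - (1 / ((D : ℝ) + 2 * ((m + k : ℕ) : ℝ) - 2)) • (R2 * Dx x g) := by
      rw [hf, hg]; exact Ax_eq (m + k) x _
    show Dx x (Ax (m + (k + 1)) x f) = cc D m (k + 1) • f
    rw [Ax_eq, map_sub, map_smul, Dx_mul, Dx_mul, Dx_lin x hx, Dx_R2, ih, map_smul, one_mul]
    have h1 := (den_pos hD (m + k)).ne'
    have h2 := (den_pos hD (m + (k + 1))).ne'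
    have hc := cc_succ hD m k
    have e1 : ((m + k + 1 : ℕ) : ℝ) = ((m + (k + 1) : ℕ) : ℝ) := by push_cast; ring
    rw [e1] at hc
    set γ : ℝ := 1 / ((D : ℝ) + 2 * ((m + k : ℕ) : ℝ) - 2) with hγ
    set γ' : ℝ := 1 / ((D : ℝ) + 2 * ((m + (k + 1) : ℕ) : ℝ) - 2) with hγ'
    have key : γ' = γ * (1 - 2 * γ') := by
      have e3 : (D : ℝ) + 2 * ((m + (k + 1) : ℕ) : ℝ) - 2 = (D : ℝ) + 2 * ((m + k : ℕ) : ℝ) - 2 + 2 := by
        push_cast; ring
      rw [hγ, hγ', e3]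
      rw [e3] at h2
      generalize (D : ℝ) + 2 * ((m + k : ℕ) : ℝ) - 2 = d at h1 h2
      field_simp
      ring
    have e2 : (C (2 : ℝ) : MvPolynomial (Fin D) ℝ) = 2 := map_ofNat C 2
    have keyC : (C γ' : MvPolynomial (Fin D) ℝ) = C γ * (1 - 2 * C γ') := by
      conv_lhs => rw [key]
      rw [map_mul, map_sub, map_mul, e2, map_one]
    rw [hc]
    rw [smul_eq_C_mul, smul_eq_C_mul, smul_eq_C_mul, smul_eq_C_mul, smul_eq_C_mul]
    rw [smul_eq_C_mul] at hfg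
    simp only [map_add, map_mul, map_sub, map_one]
    rw [e2]
    have hfg' := hfg
    linear_combination (-(C (cc D m k)) * (1 - 2 * C γ')) * hfg' + (-(C (cc D m k)) * (R2 * Dx x g)) * keyC

/-- norm constants -/
def NN (D m k : ℕ) : ℝ := ∏ l ∈ Finset.range k, cc D m l

lemma NN_pos (hD : 3 ≤ D) (m k : ℕ) : 0 < NN D m k := Finset.prod_pos fun l _ => cc_pos hD m l

lemma ip_psi (hD : 3 ≤ D) {m : ℕ} {u v : MvPolynomial (Fin D) ℝ} (x : Fin D → ℝ)
    (hx : ∑ i, x i ^ 2 = 1) (hu : IsH m u) (hv : IsH m v) (hv0 : Dx x v = 0) (k : ℕ) :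
    ip (m + k) (psi m x u k) (psi m x v k) = NN D m k * ip m u v := by
  induction k with
  | zero => simp [psi, NN]
  | succ k ih =>
    have h1 := ip_Ax (m + k) x (psi_IsH hD hu x k).1 (psi_IsH hD hv x (k + 1))
    show ip (m + k + 1) (Ax (m + k) x (psi m x u k)) (psi m x v (k + 1)) = _
    rw [h1, Dx_psi_succ hD x hx hv0, map_smul, ih, smul_eq_mul, NN, NN, Finset.prod_range_succ]
    ring

/-- abstract level inequality, lowest level -/
lemma level_low (j : ℕ) (w : Fin D → MvPolynomial (Fin D) ℝ) (F : MvPolynomial (Fin D) ℝ)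
    (hw : ∀ i, IsH j (w i)) (hF : IsH (j + 1) F) (hA : ∑ i, A j i (w i) = F) :
    ip (j + 1) F F / ((j : ℝ) + 1) ≤ ∑ i, ip j (w i) (w i) := by
  set a : ℝ := 1 / ((j : ℝ) + 1) with ha
  have h0 : 0 ≤ ∑ i, ip j (w i - a • pderiv i F) (w i - a • pderiv i F) :=
    Finset.sum_nonneg fun i _ => ip_self_nonneg _ _
  have h1 : ∀ i, ip j (w i - a • pderiv i F) (w i - a • pderiv i F)
      = ip j (w i) (w i) - 2 * a * ip (j + 1) (A j i (w i)) F + a ^ 2 * ip j (pderiv i F) (pderiv i F) := by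
    intro i
    rw [ip_A j i (hw i).1 hF]
    simp only [map_sub, map_smul, LinearMap.sub_apply, LinearMap.smul_apply, smul_eq_mul]
    rw [ip_comm j (pderiv i F) (w i)]
    ring
  rw [Finset.sum_congr rfl (fun i _ => h1 i), Finset.sum_add_distrib, Finset.sum_sub_distrib,
    ← Finset.mul_sum, ← Finset.mul_sum, sum_ip_pderiv j hF.1, ← LinearMap.sum_apply, ← map_sum, hA] at h0
  have hj : (0 : ℝ) < (j : ℝ) + 1 := by positivity
  have ha' : a * ((j : ℝ) + 1) = 1 := by rw [ha]; field_simp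
  have e : a ^ 2 * (((j : ℝ) + 1) * ip (j + 1) F F) = a * ip (j + 1) F F := by
    rw [show a ^ 2 * (((j : ℝ) + 1) * ip (j + 1) F F) = a * (a * ((j : ℝ) + 1)) * ip (j + 1) F F by ring, ha']
    ring
  rw [e] at h0
  have e2 : ip (j + 1) F F / ((j : ℝ) + 1) = a * ip (j + 1) F F := by rw [ha]; ring
  rw [e2]
  linarith

/-- abstract level inequality -/
lemma level_gen (hD : 3 ≤ D) (j : ℕ) (w : Fin D → MvPolynomial (Fin D) ℝ)
    (F G : MvPolynomial (Fin D) ℝ) (c : ℝ)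
    (hw : ∀ i, IsH (j + 1) (w i)) (hF : IsH (j + 1 + 1) F) (hG : IsH j G)
    (hA : ∑ i, A (j + 1) i (w i) = F) (hDw : ∑ i, pderiv i (w i) = c • G) :
    ip (j + 1 + 1) F F / ((j : ℝ) + 1 + 1) + c ^ 2 / kap D j * ip j G G
      ≤ ∑ i, ip (j + 1) (w i) (w i) := by
  set a : ℝ := 1 / ((j : ℝ) + 1 + 1) with ha
  set β : ℝ := c / kap D j with hβ
  have hk := kap_pos hD j
  have h0 : 0 ≤ ∑ i, ip (j + 1) (w i - a • pderiv i F - β • A j i G) (w i - a • pderiv i F - β • A j i G) :=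
    Finset.sum_nonneg fun i _ => ip_self_nonneg _ _
  have h1 : ∀ i, ip (j + 1) (w i - a • pderiv i F - β • A j i G) (w i - a • pderiv i F - β • A j i G)
      = ip (j + 1) (w i) (w i) - 2 * a * ip (j + 1 + 1) (A (j + 1) i (w i)) F
        - 2 * β * ip j (pderiv i (w i)) G
        + a ^ 2 * ip (j + 1) (pderiv i F) (pderiv i F) + β ^ 2 * ip (j + 1) (A j i G) (A j i G)
        + 2 * a * β * ip (j + 1) (pderiv i F) (A j i G) := by
    intro i
    rw [ip_A (j + 1) i (hw i).1 hF, ← ip_A' j i hG.1 (hw i)]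
    simp only [map_sub, map_smul, LinearMap.sub_apply, LinearMap.smul_apply, smul_eq_mul]
    rw [ip_comm (j + 1) (pderiv i F) (w i), ip_comm (j + 1) (A j i G) (w i),
      ip_comm (j + 1) (A j i G) (pderiv i F)]
    ring
  rw [Finset.sum_congr rfl (fun i _ => h1 i)] at h0
  simp only [Finset.sum_add_distrib, Finset.sum_sub_distrib, ← Finset.mul_sum] at h0
  have e0 : ∑ i, ip (j + 1) (pderiv i F) (pderiv i F) = ((j : ℝ) + 1 + 1) * ip (j + 1 + 1) F F := by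
    have := sum_ip_pderiv (j + 1) hF.1
    push_cast at this
    exact this
  rw [e0, sum_ip_A hD j hG, sum_ip_cross j hF hG.1, ← LinearMap.sum_apply, ← map_sum, hA,
    ← LinearMap.sum_apply, ← map_sum, hDw, map_smul, LinearMap.smul_apply, smul_eq_mul] at h0
  have hj : (0 : ℝ) < (j : ℝ) + 1 + 1 := by positivity
  have ha' : a * ((j : ℝ) + 1 + 1) = 1 := by rw [ha]; field_simp
  have hβ' : β * kap D j = c := by rw [hβ]; field_simp
  have e : a ^ 2 * (((j : ℝ) + 1 + 1) * ip (j + 1 + 1) F F) = a * ip (j + 1 + 1) F F := by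
    rw [show a ^ 2 * (((j : ℝ) + 1 + 1) * ip (j + 1 + 1) F F)
      = a * (a * ((j : ℝ) + 1 + 1)) * ip (j + 1 + 1) F F by ring, ha']
    ring
  have e' : β ^ 2 * (kap D j * ip j G G) = β * c * ip j G G := by
    rw [show β ^ 2 * (kap D j * ip j G G) = β * (β * kap D j) * ip j G G by ring, hβ']
  rw [e, e'] at h0
  have e2 : ip (j + 1 + 1) F F / ((j : ℝ) + 1 + 1) = a * ip (j + 1 + 1) F F := by rw [ha]; ring
  have e3 : c ^ 2 / kap D j * ip j G G = β * c * ip j G G := by rw [hβ]; ring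
  rw [e2, e3]
  linarith

end

end Pool.Agent.Helper82.FP
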