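import Mathlib
import Pool.Agent.Helper82.FP.Psi

/-! (A): the matrix (x_p . x_q - s') M_pq is positive semidefinite; (B) Gram bounds. -/

open MvPolynomial Finset

namespace Pool.Agent.Helper82.FP

noncomputable section

variable {D : ℕ}

/-- ladder data over a finite index type -/
structure Lad (D m : ℕ) (ι : Type*) where
  x : ι → Fin D → ℝ
  f : ι → ℕ → MvPolynomial (Fin D) ℝ
  hH : ∀ p k, IsH (m + k) (f p k)
  hA : ∀ p k, Ax (m + k) (x p) (f p k) = f p (k + 1)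
  hD : ∀ p k, Dx (x p) (f p (k + 1)) = cc D m k • f p k

variable {m : ℕ} {ι : Type*} [Fintype ι] (S : Lad D m ι)

/-- Phi -/
def Lad.Phi (t : ι → ℝ) (k : ℕ) : MvPolynomial (Fin D) ℝ := ∑ p, t p • S.f p k

/-- W -/
def Lad.W (t : ι → ℝ) (i : Fin D) (k : ℕ) : MvPolynomial (Fin D) ℝ := ∑ p, (t p * S.x p i) • S.f p k

lemma Lad.Phi_IsH (t : ι → ℝ) (k : ℕ) : IsH (m + k) (S.Phi t k) :=
  IsH.sum _ fun p _ => (S.hH p k).smul _

lemma Lad.W_IsH (t : ι → ℝ) (i : Fin D) (k : ℕ) : IsH (m + k) (S.W t i k) :=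
  IsH.sum _ fun p _ => (S.hH p k).smul _

lemma Lad.sum_A_W (t : ι → ℝ) (k : ℕ) : ∑ i, A (m + k) i (S.W t i k) = S.Phi t (k + 1) := by
  unfold Lad.W Lad.Phi
  simp only [map_sum, map_smul]
  rw [Finset.sum_comm]
  apply Finset.sum_congr rfl
  intro p _
  rw [← S.hA p k, Ax_apply, Finset.smul_sum]
  apply Finset.sum_congr rfl
  intro i _
  rw [mul_smul]

lemma Lad.sum_D_W (t : ι → ℝ) (k : ℕ) : ∑ i, pderiv i (S.W t i (k + 1)) = cc D m k • S.Phi t k := by
  unfold Lad.W Lad.Phi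
  have h : ∀ i : Fin D, pderiv i (∑ p, (t p * S.x p i) • S.f p (k + 1))
      = ∑ p, t p • (S.x p i • pderiv i (S.f p (k + 1))) := by
    intro i
    rw [map_sum]
    apply Finset.sum_congr rfl
    intro p _
    rw [Derivation.map_smul, mul_smul]
  rw [Finset.sum_congr rfl (fun i _ => h i), Finset.sum_comm, Finset.smul_sum]
  apply Finset.sum_congr rfl
  intro p _
  rw [← Finset.smul_sum, ← Dx_apply, S.hD p k, smul_comm]

/-- energies -/
def Lad.E (t : ι → ℝ) (k : ℕ) : ℝ := ∑ i, ip (m + k) (S.W t i k) (S.W t i k)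

/-- norms -/
def Lad.F (t : ι → ℝ) (k : ℕ) : ℝ := ip (m + k) (S.Phi t k) (S.Phi t k)

lemma Lad.F_nonneg (t : ι → ℝ) (k : ℕ) : 0 ≤ S.F t k := ip_self_nonneg _ _

lemma Lad.level_zero (t : ι → ℝ) : S.F t 1 / ((m : ℝ) + 1) ≤ S.E t 0 :=
  level_low m (fun i => S.W t i 0) (S.Phi t 1) (fun i => S.W_IsH t i 0) (S.Phi_IsH t 1) (S.sum_A_W t 0)

lemma Lad.level_succ (hD : 3 ≤ D) (t : ι → ℝ) (k : ℕ) :
    S.F t (k + 2) / ((m : ℝ) + (k + 2 : ℕ)) + cc D m k ^ 2 / kap D (m + k) * S.F t k ≤ S.E t (k + 1) := by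
  have h := level_gen hD (m + k) (fun i => S.W t i (k + 1)) (S.Phi t (k + 2)) (S.Phi t k) (cc D m k)
    (fun i => S.W_IsH t i (k + 1)) (S.Phi_IsH t (k + 2)) (S.Phi_IsH t k) (S.sum_A_W t (k + 1)) (S.sum_D_W t k)
  have e : ((m + k : ℕ) : ℝ) + 1 + 1 = (m : ℝ) + (k + 2 : ℕ) := by push_cast; ring
  rw [e] at h
  exact h

/-- summed level inequality -/
lemma Lad.sum_level (hD : 3 ≤ D) (b : ℕ → ℝ) (hb : ∀ k, 0 ≤ b k) (K : ℕ) (hbK : b (K + 1) = 0) (s' : ℝ)
    (hr0 : s' * b 0 ≤ b 1 * cc D m 0 ^ 2 / kap D m)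
    (hr : ∀ k, s' * b (k + 1) ≤ b k / ((m : ℝ) + (k + 1 : ℕ)) + b (k + 2) * cc D m (k + 1) ^ 2 / kap D (m + (k + 1)))
    (t : ι → ℝ) :
    s' * ∑ k ∈ Finset.range (K + 1), b k * S.F t k ≤ ∑ k ∈ Finset.range (K + 1), b k * S.E t k := by
  -- lower bound for each level
  have h1 : ∑ k ∈ Finset.range (K + 1), b k * (S.F t (k + 1) / ((m : ℝ) + (k + 1 : ℕ)))
      + ∑ k ∈ Finset.range K, b (k + 1) * (cc D m k ^ 2 / kap D (m + k) * S.F t k)
      ≤ ∑ k ∈ Finset.range (K + 1), b k * S.E t k := by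
    rw [Finset.sum_range_succ' (fun k => b k * (S.F t (k + 1) / ((m : ℝ) + (k + 1 : ℕ)))),
      Finset.sum_range_succ' (fun k => b k * S.E t k)]
    have h2 : ∑ k ∈ Finset.range K, b (k + 1) * (S.F t (k + 1 + 1) / ((m : ℝ) + (k + 1 + 1 : ℕ)))
        + ∑ k ∈ Finset.range K, b (k + 1) * (cc D m k ^ 2 / kap D (m + k) * S.F t k)
        ≤ ∑ k ∈ Finset.range K, b (k + 1) * S.E t (k + 1) := by
      rw [← Finset.sum_add_distrib]
      apply Finset.sum_le_sum
      intro k _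
      rw [← mul_add]
      exact mul_le_mul_of_nonneg_left (S.level_succ hD t k) (hb _)
    have h3 : b 0 * (S.F t (0 + 1) / ((m : ℝ) + (0 + 1 : ℕ))) ≤ b 0 * S.E t 0 := by
      apply mul_le_mul_of_nonneg_left _ (hb _)
      have := S.level_zero t
      simpa using this
    linarith
  refine le_trans ?_ h1
  -- reindex
  have h4 : ∑ k ∈ Finset.range K, b (k + 1) * (cc D m k ^ 2 / kap D (m + k) * S.F t k)
      = ∑ k ∈ Finset.range (K + 1), b (k + 1) * (cc D m k ^ 2 / kap D (m + k) * S.F t k) := by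
    rw [Finset.sum_range_succ, hbK, zero_mul, add_zero]
  have h5 : ∑ k ∈ Finset.range K, b k * (S.F t (k + 1) / ((m : ℝ) + (k + 1 : ℕ)))
      ≤ ∑ k ∈ Finset.range (K + 1), b k * (S.F t (k + 1) / ((m : ℝ) + (k + 1 : ℕ))) := by
    rw [Finset.sum_range_succ]
    have : 0 ≤ b K * (S.F t (K + 1) / ((m : ℝ) + (K + 1 : ℕ))) := by
      apply mul_nonneg (hb _)
      apply div_nonneg (S.F_nonneg _ _)
      positivity
    linarith
  rw [h4]
  refine le_trans ?_ (add_le_add_left h5 _)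
  rw [Finset.sum_range_succ' (fun k => b (k + 1) * (cc D m k ^ 2 / kap D (m + k) * S.F t k)),
    Finset.sum_range_succ' (fun k => b k * S.F t k), mul_add, ← add_assoc, ← Finset.sum_add_distrib]
  apply add_le_add
  · rw [Finset.mul_sum]
    apply Finset.sum_le_sum
    intro k _
    have := mul_le_mul_of_nonneg_right (hr k) (S.F_nonneg t (k + 1))
    calc s' * (b (k + 1) * S.F t (k + 1)) = s' * b (k + 1) * S.F t (k + 1) := by ring
      _ ≤ _ := this
      _ = _ := by ring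
  · have := mul_le_mul_of_nonneg_right hr0 (S.F_nonneg t 0)
    calc s' * (b 0 * S.F t 0) = s' * b 0 * S.F t 0 := by ring
      _ ≤ _ := this
      _ = _ := by simp only [add_zero, zero_add]; ring

/-- the kernel -/
def Lad.M (b : ℕ → ℝ) (K : ℕ) (p q : ι) : ℝ :=
  ∑ k ∈ Finset.range (K + 1), b k * ip (m + k) (S.f p k) (S.f q k)

/-- inner product of the points -/
def Lad.xx (p q : ι) : ℝ := ∑ i, S.x p i * S.x q i

lemma ip_sum_sum (j : ℕ) (a b : ι → ℝ) (g h : ι → MvPolynomial (Fin D) ℝ) :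
    ip j (∑ p, a p • g p) (∑ q, b q • h q) = ∑ p, ∑ q, a p * b q * ip j (g p) (h q) := by
  rw [map_sum (ip j), LinearMap.sum_apply]
  apply Finset.sum_congr rfl
  intro p _
  rw [map_smul (ip j), LinearMap.smul_apply, map_sum, smul_eq_mul, Finset.mul_sum]
  apply Finset.sum_congr rfl
  intro q _
  rw [map_smul, smul_eq_mul]
  ring

lemma Lad.F_eq (t : ι → ℝ) (k : ℕ) :
    S.F t k = ∑ p, ∑ q, t p * t q * ip (m + k) (S.f p k) (S.f q k) := ip_sum_sum _ _ _ _ _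

lemma Lad.E_eq (t : ι → ℝ) (k : ℕ) :
    S.E t k = ∑ p, ∑ q, t p * t q * S.xx p q * ip (m + k) (S.f p k) (S.f q k) := by
  unfold Lad.E Lad.W
  rw [Finset.sum_congr rfl (fun i _ => ip_sum_sum _ _ _ _ _), Finset.sum_comm]
  apply Finset.sum_congr rfl
  intro p _
  rw [Finset.sum_comm]
  apply Finset.sum_congr rfl
  intro q _
  unfold Lad.xx
  rw [Finset.mul_sum, Finset.sum_mul]
  apply Finset.sum_congr rfl
  intro i _
  ring

/-- (A) -/
lemma Lad.matA (hD : 3 ≤ D) (b : ℕ → ℝ) (hb : ∀ k, 0 ≤ b k) (K : ℕ) (hbK : b (K + 1) = 0) (s' : ℝ)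
    (hr0 : s' * b 0 ≤ b 1 * cc D m 0 ^ 2 / kap D m)
    (hr : ∀ k, s' * b (k + 1) ≤ b k / ((m : ℝ) + (k + 1 : ℕ)) + b (k + 2) * cc D m (k + 1) ^ 2 / kap D (m + (k + 1)))
    (t : ι → ℝ) :
    0 ≤ ∑ p, ∑ q, t p * t q * ((S.xx p q - s') * S.M b K p q) := by
  have h := S.sum_level hD b hb K hbK s' hr0 hr t
  have h1 : ∑ p, ∑ q, t p * t q * ((S.xx p q - s') * S.M b K p q)
      = ∑ k ∈ Finset.range (K + 1), b k * S.E t k - s' * ∑ k ∈ Finset.range (K + 1), b k * S.F t k := by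
    have e1 : ∑ k ∈ Finset.range (K + 1), b k * S.E t k
        = ∑ p, ∑ q, ∑ k ∈ Finset.range (K + 1), b k * (t p * t q * S.xx p q * ip (m + k) (S.f p k) (S.f q k)) := by
      simp only [S.E_eq, Finset.mul_sum]
      rw [Finset.sum_comm]
      apply Finset.sum_congr rfl
      intro p _
      rw [Finset.sum_comm]
    have e2 : ∑ k ∈ Finset.range (K + 1), b k * S.F t k
        = ∑ p, ∑ q, ∑ k ∈ Finset.range (K + 1), b k * (t p * t q * ip (m + k) (S.f p k) (S.f q k)) := by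
      simp only [S.F_eq, Finset.mul_sum]
      rw [Finset.sum_comm]
      apply Finset.sum_congr rfl
      intro p _
      rw [Finset.sum_comm]
    rw [e1, e2, Finset.mul_sum, ← Finset.sum_sub_distrib]
    apply Finset.sum_congr rfl
    intro p _
    rw [Finset.mul_sum, ← Finset.sum_sub_distrib]
    apply Finset.sum_congr rfl
    intro q _
    unfold Lad.M
    rw [Finset.mul_sum, Finset.mul_sum, Finset.mul_sum, ← Finset.sum_sub_distrib]
    apply Finset.sum_congr rfl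
    intro k _
    ring
  rw [h1]
  linarith

/-- general Gram inequality -/
lemma gram_sq {κ : Type*} (I : Finset κ) (w : κ → ℝ) (hw : ∀ c ∈ I, 0 ≤ w c) (y : κ → ι → ℝ) :
    (∑ p, ∑ c ∈ I, w c * (y c p * y c p)) ^ 2
      ≤ (I.card : ℝ) * ∑ p, ∑ q, (∑ c ∈ I, w c * (y c p * y c q)) ^ 2 := by
  classical
  have h1 : ∑ p, ∑ c ∈ I, w c * (y c p * y c p) = ∑ c ∈ I, w c * ∑ p, y c p * y c p := by
    rw [Finset.sum_comm]
    apply Finset.sum_congr rfl
    intro c _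
    rw [Finset.mul_sum]
  have h2 : ∑ p, ∑ q, (∑ c ∈ I, w c * (y c p * y c q)) ^ 2
      = ∑ c ∈ I, ∑ c' ∈ I, w c * w c' * (∑ p, y c p * y c' p) ^ 2 := by
    have e1 : ∀ p q : ι, (∑ c ∈ I, w c * (y c p * y c q)) ^ 2
        = ∑ c ∈ I, ∑ c' ∈ I, w c * w c' * ((y c p * y c' p) * (y c q * y c' q)) := by
      intro p q
      rw [pow_two, Finset.sum_mul_sum]
      apply Finset.sum_congr rfl
      intro c _
      apply Finset.sum_congr rfl
      intro c' _
      ring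
    have e2 : ∀ c c' : κ, w c * w c' * (∑ p, y c p * y c' p) ^ 2
        = ∑ p, ∑ q, w c * w c' * ((y c p * y c' p) * (y c q * y c' q)) := by
      intro c c'
      rw [pow_two, Finset.sum_mul_sum, Finset.mul_sum]
      apply Finset.sum_congr rfl
      intro p _
      rw [Finset.mul_sum]
    simp only [e1, e2]
    rw [Finset.sum_congr rfl (fun p _ => Finset.sum_comm), Finset.sum_comm]
    apply Finset.sum_congr rfl
    intro c _
    rw [Finset.sum_congr rfl (fun p _ => Finset.sum_comm), Finset.sum_comm]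
  rw [h1, h2]
  have h3 : (∑ c ∈ I, w c * ∑ p, y c p * y c p) ^ 2
      ≤ (I.card : ℝ) * ∑ c ∈ I, (w c * ∑ p, y c p * y c p) ^ 2 := sq_sum_le_card_mul_sum_sq
  refine h3.trans ?_
  apply mul_le_mul_of_nonneg_left _ (by positivity)
  apply Finset.sum_le_sum
  intro c hc
  have h4 : (w c * ∑ p, y c p * y c p) ^ 2 = w c * w c * (∑ p, y c p * y c p) ^ 2 := by ring
  rw [h4]
  exact Finset.single_le_sum (f := fun c' => w c * w c' * (∑ p, y c p * y c' p) ^ 2)
    (fun c' hc' => mul_nonneg (mul_nonneg (hw c hc) (hw c' hc')) (sq_nonneg _)) hc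

end

end Pool.Agent.Helper82.FP
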