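import Mathlib
import Pool.Agent.Helper82.FP.Gram
import Pool.Agent.Helper82.FP.Fam

/-! The finite theorem `sphere_bound`. -/

open MvPolynomial Finset

namespace Pool.Agent.Helper82.FP

noncomputable section

variable {D : ℕ}

section gen

variable {m : ℕ} {ι : Type*} [Fintype ι] (S : Lad D m ι)

lemma Lad.M_expand (b : ℕ → ℝ) (K : ℕ) (p q : ι) :
    S.M b K p q = ∑ c ∈ (Finset.range (K + 1)).sigma (fun k => Mon D (m + k)),
      (b c.1 * mf c.2) * (coeff c.2 (S.f p c.1) * coeff c.2 (S.f q c.1)) := by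
  unfold Lad.M
  rw [Finset.sum_sigma]
  apply Finset.sum_congr rfl
  intro k _
  rw [ip_def, Finset.mul_sum]
  apply Finset.sum_congr rfl
  intro α _
  ring

/-- (B), first half -/
lemma Lad.sumB (hD : 3 ≤ D) (b : ℕ → ℝ) (hb : ∀ k, 0 ≤ b k) (K : ℕ) (hbK : b (K + 1) = 0) (s' : ℝ)
    (hr0 : s' * b 0 ≤ b 1 * cc D m 0 ^ 2 / kap D m)
    (hr : ∀ k, s' * b (k + 1) ≤ b k / ((m : ℝ) + (k + 1 : ℕ)) + b (k + 2) * cc D m (k + 1) ^ 2 / kap D (m + (k + 1))) :
    0 ≤ ∑ p, ∑ q, (S.xx p q - s') * S.M b K p q ^ 2 := by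
  have h : ∑ p, ∑ q, (S.xx p q - s') * S.M b K p q ^ 2
      = ∑ c ∈ (Finset.range (K + 1)).sigma (fun k => Mon D (m + k)), (b c.1 * mf c.2) *
        ∑ p, ∑ q, coeff c.2 (S.f p c.1) * coeff c.2 (S.f q c.1) * ((S.xx p q - s') * S.M b K p q) := by
    have e1 : ∀ p q : ι, (S.xx p q - s') * S.M b K p q ^ 2
        = ∑ c ∈ (Finset.range (K + 1)).sigma (fun k => Mon D (m + k)), (b c.1 * mf c.2) *
          (coeff c.2 (S.f p c.1) * coeff c.2 (S.f q c.1) * ((S.xx p q - s') * S.M b K p q)) := by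
      intro p q
      have e2 : (S.xx p q - s') * S.M b K p q ^ 2 = S.M b K p q * ((S.xx p q - s') * S.M b K p q) := by ring
      rw [e2]
      conv_lhs => rw [S.M_expand b K p q, Finset.sum_mul]
      apply Finset.sum_congr rfl
      intro c _
      rw [S.M_expand b K p q]
      ring
    simp only [e1]
    rw [Finset.sum_congr rfl (fun p _ => Finset.sum_comm), Finset.sum_comm]
    apply Finset.sum_congr rfl
    intro c _
    rw [Finset.mul_sum]
    apply Finset.sum_congr rfl
    intro p _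
    rw [Finset.mul_sum]
  rw [h]
  apply Finset.sum_nonneg
  intro c _
  apply mul_nonneg (mul_nonneg (hb _) (mf_pos _).le)
  exact S.matA hD b hb K hbK s' hr0 hr (fun p => coeff c.2 (S.f p c.1))

/-- (B), second half -/
lemma Lad.trace_le (b : ℕ → ℝ) (hb : ∀ k, 0 ≤ b k) (K k0 : ℕ) (hb0 : ∀ k, k < k0 → b k = 0) :
    (∑ p, S.M b K p p) ^ 2
      ≤ ((∑ k ∈ Finset.Icc k0 K, (Mon D (m + k)).card : ℕ) : ℝ) * ∑ p, ∑ q, S.M b K p q ^ 2 := by
  have h1 : ∀ p q : ι, S.M b K p q = ∑ c ∈ (Finset.Icc k0 K).sigma (fun k => Mon D (m + k)),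
      (b c.1 * mf c.2) * (coeff c.2 (S.f p c.1) * coeff c.2 (S.f q c.1)) := by
    intro p q
    rw [S.M_expand]
    symm
    apply Finset.sum_subset
    · intro c hc
      rw [Finset.mem_sigma] at hc ⊢
      refine ⟨?_, hc.2⟩
      have := Finset.mem_Icc.mp hc.1
      exact Finset.mem_range.mpr (by omega)
    · intro c hc hn
      have : c.1 < k0 := by
        by_contra h
        apply hn
        rw [Finset.mem_sigma] at hc ⊢
        refine ⟨?_, hc.2⟩
        have := Finset.mem_range.mp hc.1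
        exact Finset.mem_Icc.mpr ⟨by omega, by omega⟩
      rw [hb0 _ this, zero_mul, zero_mul]
  have h2 := gram_sq (ι := ι) ((Finset.Icc k0 K).sigma (fun k => Mon D (m + k)))
    (fun c => b c.1 * mf c.2) (fun c _ => mul_nonneg (hb _) (mf_pos _).le)
    (fun c p => coeff c.2 (S.f p c.1))
  rw [Finset.card_sigma] at h2
  simp only [h1]
  exact h2

end gen

/-- the ladder data of a code -/
def codeLad (hD : 3 ≤ D) (m n : ℕ) (C : Finset (Fin D → ℝ)) (hunit : ∀ x ∈ C, ∑ i, x i ^ 2 = 1)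
    (u : (Fin D → ℝ) → Fin n → MvPolynomial (Fin D) ℝ) (hu : ∀ x a, IsH m (u x a))
    (hu0 : ∀ x a, Dx x (u x a) = 0) : Lad D m (C × Fin n) where
  x := fun p => p.1.1
  f := fun p k => psi m p.1.1 (u p.1.1 p.2) k
  hH := fun p k => psi_IsH hD (hu _ _) _ k
  hA := fun p k => rfl
  hD := fun p k => Dx_psi_succ hD _ (hunit _ p.1.2) (hu0 _ _) k

theorem sphere_bound (D m lo T : ℕ) (hD : 3 ≤ D) (hm2 : 2 ≤ m) (hm : m ≤ lo) (hlo : lo ≤ T) (b : ℕ → ℝ)
    (hb : ∀ j, 0 ≤ b j) (hpos : ∃ j, 0 < b j)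
    (hsupp : ∀ j, b j ≠ 0 → lo ≤ j ∧ j ≤ T) (s s' : ℝ) (hs : s < s') (hs1 : s ≤ 1)
    (hrec : ∀ j, lo ≤ j → j ≤ T → s' * b j ≤ b (j - 1) / j + b (j + 1) * cc D m (j - m) ^ 2 / kap D j)
    (C : Finset (Fin D → ℝ)) (hunit : ∀ x ∈ C, ∑ i, x i ^ 2 = 1)
    (hcode : ∀ x ∈ C, ∀ y ∈ C, x ≠ y → ∑ i, x i * y i ≤ s) :
    (C.card : ℝ) * (s' - s) * ((Nat.choose (D + m - 1) m : ℝ) - Nat.choose (D + m - 2) (m - 1)
      - Nat.choose (D + m - 3) (m - 2)) ≤ (1 - s) * ∑ j ∈ Finset.Icc lo T, (Nat.choose (D + j - 1) j : ℝ) := by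
  classical
  set n : ℕ := (D + m - 1).choose m - ((D + m - 2).choose (m - 1) + (D + m - 3).choose (m - 2)) with hn
  have hnR : ((Nat.choose (D + m - 1) m : ℝ) - Nat.choose (D + m - 2) (m - 1)
      - Nat.choose (D + m - 3) (m - 2)) ≤ (n : ℝ) := by
    have : (D + m - 1).choose m ≤ n + ((D + m - 2).choose (m - 1) + (D + m - 3).choose (m - 2)) := by omega
    have h2 : ((D + m - 1).choose m : ℝ) ≤ n + (((D + m - 2).choose (m - 1) : ℝ) + (D + m - 3).choose (m - 2)) := by
      exact_mod_cast this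
    linarith
  -- families
  choose u hu hu0 huo using fun x : Fin D → ℝ => exists_family (D := D) m hm2 x
  have hu0' : ∀ x a, Dx x (u x a) = 0 := fun x a => by rw [Dx_apply]; exact hu0 x a
  let S := codeLad hD m n C hunit u hu hu0'
  -- shifted weights
  obtain ⟨K, hK⟩ : ∃ K, T = m + K := ⟨T - m, by omega⟩
  obtain ⟨k0, hk0⟩ : ∃ k0, lo = m + k0 := ⟨lo - m, by omega⟩
  set β : ℕ → ℝ := fun k => b (m + k) with hβ
  have hβn : ∀ k, 0 ≤ β k := fun k => hb _
  have hβK : β (K + 1) = 0 := by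
    by_contra h
    have := hsupp _ h
    omega
  have hβ0 : ∀ k, k < k0 → β k = 0 := by
    intro k hk
    by_contra h
    have := hsupp _ h
    omega
  have hterm1 : ∀ (j : ℕ) (c : ℝ), 0 ≤ b j / c ∨ c < 0 := by
    intro j c
    by_cases hc : 0 ≤ c
    · exact Or.inl (div_nonneg (hb _) hc)
    · exact Or.inr (not_le.mp hc)
  have hkapn : ∀ j, 0 < kap D j := kap_pos hD
  have hr0 : s' * β 0 ≤ β 1 * cc D m 0 ^ 2 / kap D m := by
    have hR : 0 ≤ β 1 * cc D m 0 ^ 2 / kap D m :=
      div_nonneg (mul_nonneg (hβn _) (sq_nonneg _)) (hkapn _).le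
    by_cases h : β 0 = 0
    · rw [h, mul_zero]; exact hR
    · have h1 := hsupp _ h
      have h2 := hrec m (by omega) (by omega)
      have h3 : b (m - 1) = 0 := by
        by_contra h0
        have := hsupp _ h0
        omega
      rw [h3, zero_div, zero_add, Nat.sub_self] at h2
      exact h2
  have hr : ∀ k, s' * β (k + 1) ≤ β k / ((m : ℝ) + (k + 1 : ℕ))
      + β (k + 2) * cc D m (k + 1) ^ 2 / kap D (m + (k + 1)) := by
    intro k
    by_cases h : β (k + 1) = 0
    · rw [h, mul_zero]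
      apply add_nonneg
      · exact div_nonneg (hβn _) (by positivity)
      · exact div_nonneg (mul_nonneg (hβn _) (sq_nonneg _)) (hkapn _).le
    · have h1 := hsupp _ h
      have h2 := hrec (m + (k + 1)) (by omega) (by omega)
      have e1 : m + (k + 1) - 1 = m + k := by omega
      have e2 : m + (k + 1) - m = k + 1 := by omega
      rw [e1, e2] at h2
      push_cast at h2 ⊢
      exact h2
  have hB1 := S.sumB hD β hβn K hβK s' hr0 hr
  have hB2 := S.trace_le β hβn K k0 hβ0
  -- the constant B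
  set B : ℝ := ∑ k ∈ Finset.range (K + 1), β k * NN D m k with hB
  have hBpos : 0 < B := by
    obtain ⟨j, hj⟩ := hpos
    have h1 := hsupp j hj.ne'
    have h2 : (j - m) ∈ Finset.range (K + 1) := Finset.mem_range.mpr (by omega)
    have h3 : β (j - m) * NN D m (j - m) ≤ B :=
      Finset.single_le_sum (f := fun k => β k * NN D m k)
        (fun k _ => mul_nonneg (hβn k) (NN_pos hD m k).le) h2
    have h4 : β (j - m) = b j := by
      show b (m + (j - m)) = b j
      congr 1; omega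
    rw [h4] at h3
    exact lt_of_lt_of_le (mul_pos hj (NN_pos hD m _)) h3
  have hM : ∀ (x : C) (a a' : Fin n), S.M β K (x, a) (x, a') = if a = a' then B else 0 := by
    intro x a a'
    show ∑ k ∈ Finset.range (K + 1), β k * ip (m + k) (psi m x.1 (u x.1 a) k) (psi m x.1 (u x.1 a') k) = _
    have : ∀ k, β k * ip (m + k) (psi m x.1 (u x.1 a) k) (psi m x.1 (u x.1 a') k)
        = if a = a' then β k * NN D m k else 0 := by
      intro k
      rw [ip_psi hD x.1 (hunit _ x.2) (hu _ _) (hu _ _) (hu0' _ _) k, huo]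
      split_ifs <;> ring
    rw [Finset.sum_congr rfl (fun k _ => this k)]
    split_ifs
    · rfl
    · exact Finset.sum_const_zero
  -- trace
  have htr : ∑ p, S.M β K p p = (C.card : ℝ) * n * B := by
    rw [Fintype.sum_prod_type]
    have : ∀ x : C, ∑ a : Fin n, S.M β K (x, a) (x, a) = n * B := by
      intro x
      rw [Finset.sum_congr rfl (fun a _ => by rw [hM x a a, if_pos rfl])]
      simp
    rw [Finset.sum_congr rfl (fun x _ => this x)]
    simp [mul_assoc]
  -- upper bound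
  have hup : ∑ p, ∑ q, (S.xx p q - s) * S.M β K p q ^ 2 ≤ (1 - s) * ((C.card : ℝ) * n * B ^ 2) := by
    rw [Fintype.sum_prod_type]
    have hx : ∀ (x : C) (a : Fin n), ∑ q : C × Fin n, (S.xx (x, a) q - s) * S.M β K (x, a) q ^ 2
        ≤ (1 - s) * B ^ 2 := by
      intro x a
      rw [Fintype.sum_prod_type]
      have h1 : ∀ y : C, ∑ a' : Fin n, (S.xx (x, a) (y, a') - s) * S.M β K (x, a) (y, a') ^ 2
          ≤ if y = x then (1 - s) * B ^ 2 else 0 := by
        intro y
        by_cases hxy : y = x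
        · subst hxy
          rw [if_pos rfl]
          have h2 : ∀ a' : Fin n, (S.xx (y, a) (y, a') - s) * S.M β K (y, a) (y, a') ^ 2
              = if a = a' then (1 - s) * B ^ 2 else 0 := by
            intro a'
            rw [hM]
            have h3 : S.xx (y, a) (y, a') = 1 := by
              show ∑ i, y.1 i * y.1 i = 1
              rw [← hunit _ y.2]
              apply Finset.sum_congr rfl
              intro i _
              ring
            rw [h3]
            split_ifs <;> ring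
          rw [Finset.sum_congr rfl (fun a' _ => h2 a')]
          simp
        · rw [if_neg hxy]
          apply Finset.sum_nonpos
          intro a' _
          apply mul_nonpos_of_nonpos_of_nonneg _ (sq_nonneg _)
          have h3 : S.xx (x, a) (y, a') ≤ s := by
            show ∑ i, x.1 i * y.1 i ≤ s
            exact hcode _ x.2 _ y.2 (fun h => hxy (Subtype.ext h.symm))
          linarith
      calc _ ≤ ∑ y : C, (if y = x then (1 - s) * B ^ 2 else 0) := Finset.sum_le_sum fun y _ => h1 y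
        _ = (1 - s) * B ^ 2 := by simp
    calc _ ≤ ∑ x : C, ∑ a : Fin n, (1 - s) * B ^ 2 :=
          Finset.sum_le_sum fun x _ => Finset.sum_le_sum fun a _ => hx x a
      _ = _ := by simp; ring
  -- combination
  have hcomb : (s' - s) * ∑ p, ∑ q, S.M β K p q ^ 2 ≤ (1 - s) * ((C.card : ℝ) * n * B ^ 2) := by
    have e : ∑ p, ∑ q, (S.xx p q - s) * S.M β K p q ^ 2
        = ∑ p, ∑ q, (S.xx p q - s') * S.M β K p q ^ 2 + (s' - s) * ∑ p, ∑ q, S.M β K p q ^ 2 := by
      rw [Finset.mul_sum, ← Finset.sum_add_distrib]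
      apply Finset.sum_congr rfl
      intro p _
      rw [Finset.mul_sum, ← Finset.sum_add_distrib]
      apply Finset.sum_congr rfl
      intro q _
      ring
    rw [e] at hup
    linarith
  -- number of coordinates
  set H : ℝ := ∑ j ∈ Finset.Icc lo T, (Nat.choose (D + j - 1) j : ℝ) with hH
  have hcard : ((∑ k ∈ Finset.Icc k0 K, (Mon D (m + k)).card : ℕ) : ℝ) = H := by
    rw [hH, hk0, hK]
    push_cast
    rw [← Finset.map_add_left_Icc k0 K m, Finset.sum_map]
    apply Finset.sum_congr rfl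
    intro k _
    rw [card_Mon]
    simp
  rw [hcard, htr] at hB2
  have hs'' : 0 < s' - s := by linarith
  have hs1' : 0 ≤ 1 - s := by linarith
  have hHn : 0 ≤ H := Finset.sum_nonneg fun j _ => by positivity
  have hmain : (C.card : ℝ) * (s' - s) * n ≤ (1 - s) * H := by
    by_cases hz : (C.card : ℝ) * n = 0
    · have : (C.card : ℝ) * (s' - s) * n = (s' - s) * ((C.card : ℝ) * n) := by ring
      rw [this, hz, mul_zero]
      exact mul_nonneg hs1' hHn
    · have hz' : 0 < (C.card : ℝ) * n := lt_of_le_of_ne (by positivity) (Ne.symm hz)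
      have h1 : (s' - s) * ((C.card : ℝ) * n * B) ^ 2 ≤ H * ((1 - s) * ((C.card : ℝ) * n * B ^ 2)) := by
        calc (s' - s) * ((C.card : ℝ) * n * B) ^ 2
            ≤ (s' - s) * (H * ∑ p, ∑ q, S.M β K p q ^ 2) := mul_le_mul_of_nonneg_left hB2 hs''.le
          _ = H * ((s' - s) * ∑ p, ∑ q, S.M β K p q ^ 2) := by ring
          _ ≤ _ := mul_le_mul_of_nonneg_left hcomb hHn
      have h2 : 0 < (C.card : ℝ) * n * B ^ 2 := mul_pos hz' (by positivity)
      have h3 : ((C.card : ℝ) * (s' - s) * n) * ((C.card : ℝ) * n * B ^ 2)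
          ≤ ((1 - s) * H) * ((C.card : ℝ) * n * B ^ 2) := by
        calc ((C.card : ℝ) * (s' - s) * n) * ((C.card : ℝ) * n * B ^ 2)
            = (s' - s) * ((C.card : ℝ) * n * B) ^ 2 := by ring
          _ ≤ _ := h1
          _ = _ := by ring
      exact le_of_mul_le_mul_right h3 h2
  refine le_trans ?_ hmain
  exact mul_le_mul_of_nonneg_left hnR (mul_nonneg (by positivity) hs''.le)

end

end Pool.Agent.Helper82.FP
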